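import Pool.Agent.helper17.EXT.Spec

set_option autoImplicit false

/-!
# Row SGR: the generators
-/

open Finset

namespace Pool.Agent.EXT

open Pool.Agent.EXC

theorem SGR_nb : ∀ α, ip C6 α α = 2 → ∃ β, ip C6 β β = 2 ∧ ip C6 α β = -1 :=
  (f_NBR 6 C6 1 th ![0, 2, 3, 4, 5] f_DE6.2).1

theorem SGR_ex {K : Type} [Field K] (α : Fin 6 → ℤ) (hα : ip C6 α α = 2) : Ex C6 (E C6 α : Lm C6 K) :=
  (f_EXF 6 C6 K SGR_nb).2.1 α hα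

theorem SGR_xtr {K : Type} [Field K] (α : Fin 6 → ℤ) (hα : ip C6 α α = 2) : Xtr C6 (E C6 α : Lm C6 K) :=
  ((f_EXF 6 C6 K SGR_nb).2.2.1 _ (SGR_ex α hα)).1

theorem SGR_isx {K : Type} [Field K] (α : Fin 6 → ℤ) (hα : ip C6 α α = 2) (t : K) :
    ∃ h ∈ GE C6 K, IsX C6 (E C6 α : Lm C6 K) t h :=
  ((f_EXF 6 C6 K SGR_nb).2.2.1 _ (SGR_ex α hα)).2.2.2.2.1 t

theorem SGR_add {K : Type} [Field K] (α : Fin 6 → ℤ) (hα : ip C6 α α = 2) (s t : K) (v : Lm C6 K) :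
    xe C6 (E C6 α) s (xe C6 (E C6 α) t v) = xe C6 (E C6 α) (s + t) v :=
  (f_XAU 6 C6 K _ (SGR_xtr α hα)).1 s t v

theorem SGR_smul {K : Type} [Field K] (α : Fin 6 → ℤ) (hα : ip C6 α α = 2) (c t : K) (v : Lm C6 K) :
    xe C6 (c • (E C6 α : Lm C6 K)) t v = xe C6 (E C6 α) (c * t) v :=
  ((f_XAU 6 C6 K _ (SGR_xtr α hα)).2.2.2 c).2 t v

theorem SGR_com {K : Type} [Field K] (α β : Fin 6 → ℤ) (hα : ip C6 α α = 2) (hβ : ip C6 β β = 2) (h : ip C6 α β = 0)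
    (b c : K) (v : Lm C6 K) :
    xe C6 (E C6 α) b (xe C6 (E C6 β) c v) = xe C6 (E C6 β) c (xe C6 (E C6 α) b v) :=
  (f_COL 6 C6 K α β hα hβ).2 (le_of_eq h.symm) b c v

/-- the facts on `γ` and `πγ` for a short root -/
theorem SGR_short (hRTF : RTF_stmt) {γ : Fin 6 → ℤ} (hγ : SR γ) :
    ip C6 (pv γ) (pv γ) = 2 ∧ ip C6 γ (pv γ) = 0 ∧ SR (pv γ) := by
  have h1 : ip C6 (pv γ) (pv γ) = 2 := by rw [hRTF.1]; exact hγ.1
  refine ⟨h1, ?_, h1, ?_⟩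
  · exact hRTF.2.2.2.2.2.2.2.2.2.2.2.2.1 γ hγ
  · rw [hRTF.2.1]
    exact fun h => hγ.2 h.symm

theorem SGR_sq {K : Type} [Field K] (hRTF : RTF_stmt) (γ : Fin 6 → ℤ) (x : K) : (sn γ : K) * ((sn γ : K) * x) = x := by
  rcases hRTF.2.2.2.2.2.2.1 γ with h | h <;> rw [h] <;> push_cast <;> ring

theorem SGR_IsS_ex {K : Type} [Field K] (τ : K ≃+* K) (hRTF : RTF_stmt) (γ : Fin 6 → ℤ) (t : K) (hγ : SR γ) :
    ∃ g ∈ GE C6 K, IsS τ γ t g := by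
  obtain ⟨h1, -, -⟩ := SGR_short hRTF hγ
  obtain ⟨g₁, hg₁, hx₁⟩ := SGR_isx (K := K) γ hγ.1 t
  obtain ⟨g₂, hg₂, hx₂⟩ := SGR_isx (K := K) (pv γ) h1 ((sn γ : K) * τ t)
  refine ⟨g₁ * g₂, mul_mem hg₁ hg₂, fun v => ?_⟩
  rw [LinearEquiv.mul_apply, hx₁, hx₂]

theorem SGR_IsS_unique {K : Type} [Field K] (τ : K ≃+* K) (γ : Fin 6 → ℤ) (t : K) (g h : Lm C6 K ≃ₗ[K] Lm C6 K)
    (hg : IsS τ γ t g) (hh : IsS τ γ t h) : g = h := by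
  ext1 v
  rw [hg v, hh v]

theorem SGR_si_long {K : Type} [Field K] (τ : K ≃+* K) (hτ : ∀ x, τ (τ x) = x) (hRTF : RTF_stmt) (hSIG : SIG_stmt)
    (β : Fin 6 → ℤ) (t : K) (ht : τ t = t) (hβ : LR β) (g : Lm C6 K ≃ₗ[K] Lm C6 K) (hg : IsX C6 (E C6 β) t g)
    (v : Lm C6 K) : si τ (g v) = g (si τ v) := by
  have hS := hSIG K τ hτ
  rw [hg v, hg (si τ v), hS.2.2.2.2.2.2.2, hS.2.2.2.2.2.1 β hβ.1, hβ.2, hRTF.2.2.2.2.2.2.2.2.2.2.1 β hβ.2, ht]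
  rw [Int.cast_one, one_smul]

theorem SGR_si_short {K : Type} [Field K] (τ : K ≃+* K) (hτ : ∀ x, τ (τ x) = x) (hRTF : RTF_stmt) (hSIG : SIG_stmt)
    (γ : Fin 6 → ℤ) (t : K) (hγ : SR γ) (g : Lm C6 K ≃ₗ[K] Lm C6 K) (hg : IsS τ γ t g)
    (v : Lm C6 K) : si τ (g v) = g (si τ v) := by
  have hS := hSIG K τ hτ
  obtain ⟨h1, h2, -⟩ := SGR_short hRTF hγ
  have h3 : τ ((sn γ : K) * τ t) = (sn γ : K) * t := by
    rw [map_mul, hτ, map_intCast]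
  rw [hg v, hg (si τ v), hS.2.2.2.2.2.2.2, hS.2.2.2.2.2.2.2, hS.2.2.2.2.2.1 γ hγ.1, hS.2.2.2.2.2.1 (pv γ) h1,
    hRTF.2.1, hRTF.2.2.2.2.2.2.2.1, SGR_smul (pv γ) h1, SGR_smul γ hγ.1, h3, SGR_sq hRTF]
  exact (SGR_com γ (pv γ) hγ.1 h1 h2 _ _ _).symm

theorem SGR (hRTF : RTF_stmt) (hSIG : SIG_stmt) : SGR_stmt := by
  intro K _ τ hτ
  have hip := hRTF.1
  have hpp := hRTF.2.1
  have hneg := hRTF.2.2.2.1
  have hsr := hRTF.2.2.2.2.1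
  have hsn := hRTF.2.2.2.2.2.2.2.1
  have hsr2 : ∀ i, ip C6 (sr i) (sr i) = 2 := fun i => ip_sr_self C6 i
  have hne : ∀ i : Fin 6, pn i ≠ i → (sr (pn i) : Fin 6 → ℤ) ≠ sr i := by
    intro i hi h
    have h1 := congrFun h i
    unfold sr at h1
    rw [Pi.single_eq_same, Pi.single_eq_of_ne (Ne.symm hi)] at h1
    exact zero_ne_one h1
  refine ⟨?_, ?_, ?_, ?_, ?_, ?_⟩
  · intro γ t hγ
    obtain ⟨g, -, hg⟩ := SGR_IsS_ex τ hRTF γ t hγ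
    exact ⟨g, Subgroup.subset_closure (Or.inr ⟨γ, t, hγ, hg⟩), hg⟩
  · intro β t hβ ht
    obtain ⟨g, -, hg⟩ := SGR_isx (K := K) β hβ.1 t
    exact ⟨g, Subgroup.subset_closure (Or.inl ⟨β, t, hβ, ht, hg⟩), hg⟩
  · intro γ s t g h hγ hg hh v
    obtain ⟨h1, h2, -⟩ := SGR_short hRTF hγ
    rw [LinearEquiv.mul_apply, hh v, hg, ← SGR_com γ (pv γ) hγ.1 h1 h2 t, SGR_add γ hγ.1, SGR_add (pv γ) h1, map_add, mul_add]
  · intro γ t g hγ hg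
    refine ⟨fun v => ?_, Subgroup.subset_closure (Or.inr ⟨γ, t, hγ, hg⟩)⟩
    obtain ⟨h1, h2, -⟩ := SGR_short hRTF hγ
    have h3 : τ ((sn γ : K) * τ t) = (sn γ : K) * t := by
      rw [map_mul, hτ, map_intCast]
    rw [hg v, hpp, hsn, h3, SGR_sq hRTF]
    exact SGR_com γ (pv γ) hγ.1 h1 h2 _ _ _
  · intro i t g hg
    apply Subgroup.subset_closure
    rcases hg with (⟨h1, h2, h3⟩ | ⟨h1, h3⟩) | (⟨h1, h2, h3⟩ | ⟨h1, h3⟩)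
    · refine Or.inl ⟨sr i, t, ⟨hsr2 i, ?_⟩, h2, h3⟩
      rw [hsr, h1]
    · refine Or.inr ⟨sr i, t, ⟨hsr2 i, ?_⟩, h3⟩
      rw [hsr]
      exact hne i h1
    · refine Or.inl ⟨-sr i, t, ⟨neg_root C6 (hsr2 i), ?_⟩, h2, h3⟩
      rw [hneg, hsr, h1]
    · refine Or.inr ⟨-sr i, t, ⟨neg_root C6 (hsr2 i), ?_⟩, h3⟩
      rw [hneg, hsr]
      exact fun h => hne i h1 (neg_injective h)
  · have key : ∀ g ∈ GS τ, g ∈ GE C6 K ∧ ∀ v, si τ (g v) = g (si τ v) := by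
      intro g hg
      unfold GS at hg
      induction hg using Subgroup.closure_induction with
      | mem g hg =>
        rcases hg with ⟨β, t, hβ, ht, hx⟩ | ⟨γ, t, hγ, hx⟩
        · refine ⟨Subgroup.subset_closure ⟨β, hβ.1, t, hx⟩, fun v => ?_⟩
          exact SGR_si_long τ hτ hRTF hSIG β t ht hβ g hx v
        · refine ⟨?_, fun v => SGR_si_short τ hτ hRTF hSIG γ t hγ g hx v⟩
          obtain ⟨g', hg', hx'⟩ := SGR_IsS_ex τ hRTF γ t hγ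
          rw [SGR_IsS_unique τ γ t g g' hx hx']
          exact hg'
      | one => exact ⟨one_mem _, fun v => rfl⟩
      | mul g h _ _ ihg ihh =>
        refine ⟨mul_mem ihg.1 ihh.1, fun v => ?_⟩
        rw [LinearEquiv.mul_apply, LinearEquiv.mul_apply, ihg.2, ihh.2]
      | inv g _ ih =>
        refine ⟨inv_mem ih.1, fun v => ?_⟩
        have h1 : g (si τ (g⁻¹ v)) = si τ v := by
          rw [← ih.2]
          congr 1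
          exact LinearEquiv.apply_symm_apply g v
        have h2 : g⁻¹ (g (si τ (g⁻¹ v))) = si τ (g⁻¹ v) := LinearEquiv.symm_apply_apply g _
        rw [← h2, h1]
    intro g hg
    have h1 := key g hg
    exact ⟨h1.1, (f_EXF 6 C6 K SGR_nb).1 g h1.1, h1.2⟩

end Pool.Agent.EXT
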