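import Pool.Agent.helper17.EXT.SpecJ

/-!
# Row ftj:JLN (MP_561ff4_al): the image of `X_θ X_{θ - α₁}` under an involution which exchanges long and short root subgroups
-/

set_option autoImplicit false

open Finset

namespace Pool.Agent.EXT

open Pool.Agent.EXC

theorem JLN_hb : ∀ α, ip C6 α α = 2 → ∃ β, ip C6 β β = 2 ∧ ip C6 α β = -1 :=
  (f_NBR 6 C6 1 th ![0, 2, 3, 4, 5] f_DE6.2).1

theorem JLN_one {K : Type} [Field K] (g : Lm C6 K ≃ₗ[K] Lm C6 K) (v : Lm C6 K) :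
    (1 : Lm C6 K ≃ₗ[K] Lm C6 K) (g ((1 : Lm C6 K ≃ₗ[K] Lm C6 K)⁻¹ v)) = g v := rfl

theorem JLN_inv_apply {K : Type} [Field K] (z : Lm C6 K ≃ₗ[K] Lm C6 K) (v : Lm C6 K) : z (z⁻¹ v) = v :=
  LinearEquiv.apply_symm_apply z v

theorem JLN_inv_apply' {K : Type} [Field K] (z : Lm C6 K ≃ₗ[K] Lm C6 K) (v : Lm C6 K) : z⁻¹ (z v) = v :=
  LinearEquiv.symm_apply_apply z v

/-- coefficients of `x_α(s) v` -/
theorem JLN_cf {K : Type} [Field K] {α : Fin 6 → ℤ} (hα : ip C6 α α = 2) (s : K) (v : Lm C6 K) {γ : Fin 6 → ℤ} (hγ : ip C6 γ γ = 2)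
    (hne : γ ≠ α) : cf (xe C6 (E C6 α) s v) γ = cf v γ + s * ((sg C6 α (γ - α) : K) * cf v (γ - α)) := by
  unfold xe
  rw [cf_add, cf_add, cf_smul, cf_smul, (br_E C6 hα v).2 γ hγ, if_neg hne, cf_E C6 hα, if_neg hne]
  ring

theorem JLN_z {K : Type} [Field K] {α : Fin 6 → ℤ} (hα : ip C6 α α = 2) (s : K) (v : Lm C6 K) {γ : Fin 6 → ℤ}
    (hne : γ ≠ α) (h1 : cf v γ = 0) (h2 : cf v (γ - α) = 0) : cf (xe C6 (E C6 α) s v) γ = 0 := by
  by_cases hγ : ip C6 γ γ = 2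
  · rw [JLN_cf hα s v hγ hne, h1, h2]
    ring
  · exact cf_eq_zero C6 _ hγ

theorem JLN_orth {K : Type} [Field K] {α : Fin 6 → ℤ} (hα : ip C6 α α = 2) (s : K) (v : Lm C6 K) {γ : Fin 6 → ℤ}
    (hγ : ip C6 γ γ = 2) (h0 : ip C6 α γ = 0) : cf (xe C6 (E C6 α) s v) γ = cf v γ := by
  have hne : γ ≠ α := by
    rintro rfl
    omega
  have hn : ip C6 (γ - α) (γ - α) ≠ 2 := by
    rw [ip_sub_left, ip_sub_right, ip_sub_right, ip_comm C6 γ α]
    omega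
  rw [JLN_cf hα s v hγ hne, cf_eq_zero C6 v hn]
  ring

/-- the comparison of coefficients -/
theorem JLN_con (hRTF : RTF_stmt) (hACS : ACS_stmt) {K : Type} [Field K] {γ δ β : Fin 6 → ℤ} (hγ : SR γ) (hδ : ip C6 δ δ = 2)
    (hδγ : ip C6 δ γ = -1) (h3 : pv δ = δ ∨ ip C6 (pv δ) γ = 0) (hβ : LR β) (hγβ : ip C6 γ β = -1) (hδβ : ip C6 δ β = 0)
    (hz1 : β + (γ + δ) ≠ eta) (hz2 : β + (γ + δ) ≠ pv eta)
    (hz3 : ∀ x ∈ [0, γ, pv γ, γ + pv γ], ∀ y ∈ [0, eta, pv eta, eta + pv eta], γ + δ ≠ x + y)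
    (D g a b : Lm C6 K ≃ₗ[K] Lm C6 K) (hD : (pv δ = δ ∧ IsX C6 (E C6 δ) 1 D) ∨ (pv δ ≠ δ ∧ IsS (RingEquiv.refl K) δ 1 D)) (s r : K)
    (hg : IsS (RingEquiv.refl K) γ 1 g) (ha : IsS (RingEquiv.refl K) eta s a) (hb : IsS (RingEquiv.refl K) γ r b)
    (he : D (g (E C6 β)) = a (b (E C6 β))) : False := by
  have hτ : ∀ x : K, (RingEquiv.refl K) ((RingEquiv.refl K) x) = x := fun _ => rfl
  obtain ⟨hpi, -, -, -, -, -, -, -, -, -, -, -, hRTFd, -, -⟩ := hRTF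
  obtain ⟨-, -, -, hA⟩ := hACS K (RingEquiv.refl K) hτ γ β hγ hβ
  have hpγ : ip C6 (pv γ) (pv γ) = 2 := by rw [hpi]; exact hγ.1
  have hpβ : ip C6 (pv γ) β = -1 := by
    have := hpi γ β
    rw [hβ.2] at this
    rw [this, hγβ]
  have rγβ : ip C6 (γ + β) (γ + β) = 2 := (add_root_iff hγ.1 hβ.1).2 hγβ
  have rpβ : ip C6 (pv γ + β) (pv γ + β) = 2 := (add_root_iff hpγ hβ.1).2 hpβ
  -- the support of `X_γ(t) E β`
  have key : ∀ (t : K) (k : Lm C6 K ≃ₗ[K] Lm C6 K), IsS (RingEquiv.refl K) γ t k →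
      (∀ μ, (∀ x ∈ [0, γ, pv γ, γ + pv γ], μ ≠ β + x) → cf (k (E C6 β)) μ = 0) ∧
      cf (k (E C6 β)) (γ + β) = t * (sg C6 γ β : K) := by
    intro t k hk
    obtain ⟨-, h1⟩ := hA t k hk
    obtain ⟨hL, h1⟩ := h1 hγβ
    have q0 : ∀ μ, cf (E C6 β : Lm C6 K) μ = if μ = β then 1 else 0 := fun μ => cf_E C6 hβ.1 μ
    have q1 : ∀ μ, cf (E C6 (γ + β) : Lm C6 K) μ = if μ = γ + β then 1 else 0 := fun μ => cf_E C6 rγβ μ
    have q2 : ∀ μ, cf (E C6 (pv γ + β) : Lm C6 K) μ = if μ = pv γ + β then 1 else 0 := fun μ => cf_E C6 rpβ μ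
    have q3 : ∀ μ, cf (E C6 (γ + pv γ + β) : Lm C6 K) μ = if μ = γ + pv γ + β then 1 else 0 := fun μ => cf_E C6 hL.1 μ
    constructor
    · intro μ hμ
      have e0 : μ ≠ β := by
        have := hμ 0 (by simp)
        rwa [add_zero] at this
      have e1 : μ ≠ γ + β := by
        have := hμ γ (by simp)
        rwa [add_comm] at this
      have e2 : μ ≠ pv γ + β := by
        have := hμ (pv γ) (by simp)
        rwa [add_comm] at this
      have e3 : μ ≠ γ + pv γ + β := by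
        have := hμ (γ + pv γ) (by simp)
        rwa [add_comm] at this
      rw [h1, cf_add, cf_add, cf_add, cf_smul, cf_smul, cf_smul, q0, q1, q2, q3, if_neg e0, if_neg e1, if_neg e2, if_neg e3]
      ring
    · have e0 : γ + β ≠ β := by
        intro h
        have h0 : γ = 0 := by simpa using h
        have := hγ.1
        rw [h0, ip_zero_left] at this
        omega
      have e2 : γ + β ≠ pv γ + β := by
        intro h
        exact hγ.2 (add_right_cancel h).symm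
      have e3 : γ + β ≠ γ + pv γ + β := by
        intro h
        have h0 : pv γ = 0 := by
          have := add_right_cancel h
          simpa using this
        rw [h0, ip_zero_left] at hpγ
        omega
      rw [h1, cf_add, cf_add, cf_add, cf_smul, cf_smul, cf_smul, q0, q1, q2, q3, if_neg e0, if_pos rfl, if_neg e2, if_neg e3]
      ring
  obtain ⟨kb, -⟩ := key r b hb
  obtain ⟨kg, kg1⟩ := key 1 g hg
  -- the root `ζ`
  have hζr : ip C6 (β + (γ + δ)) (β + (γ + δ)) = 2 := by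
    have e : β + (γ + δ) = (γ + β) + δ := by abel
    rw [e]
    refine (add_root_iff rγβ hδ).2 ?_
    rw [ip_add_left, ip_comm C6 γ δ, ip_comm C6 β δ, hδγ, hδβ]
    norm_num
  have hep : ip C6 eta eta = 2 := by decide +kernel
  have hep' : ip C6 (pv eta) (pv eta) = 2 := by rw [hpi]; exact hep
  have hsup : ∀ y ∈ [0, eta, pv eta, eta + pv eta], ∀ (w : Lm C6 K), (∀ μ, (∀ x ∈ [0, γ, pv γ, γ + pv γ], μ ≠ β + x) → cf w μ = 0) →
      cf w (β + (γ + δ) - y) = 0 := by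
    intro y hy w hw
    refine hw _ fun x hx h => hz3 x hx y hy ?_
    have h2 : β + (γ + δ) = β + x + y := by
      rw [← h]
      abel
    rw [add_assoc] at h2
    exact add_left_cancel h2
  -- the right hand side
  have hR : cf (a (b (E C6 β))) (β + (γ + δ)) = 0 := by
    rw [ha]
    refine JLN_z hep _ _ hz1 ?_ ?_
    · refine JLN_z hep' _ _ hz2 ?_ (hsup (pv eta) (by simp) _ kb)
      have := hsup 0 (by simp) _ kb
      rwa [sub_zero] at this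
    · refine JLN_z hep' _ _ ?_ (hsup eta (by simp) _ kb) ?_
      · intro h
        have h4 : β + (γ + δ) = eta + pv eta := by
          rw [← h]
          abel
        rw [h4] at hζr
        have : ip C6 (eta + pv eta) (eta + pv eta) = 4 := by decide +kernel
        omega
      · have := hsup (eta + pv eta) (by simp) _ kb
        rwa [← sub_sub] at this
  -- the left hand side
  have hζδ : β + (γ + δ) ≠ δ := by
    intro h
    have h0 : γ + β = 0 := by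
      have e : γ + β + δ = 0 + δ := by
        rw [zero_add]
        calc γ + β + δ = β + (γ + δ) := by abel
          _ = δ := h
      exact add_right_cancel e
    rw [h0, ip_zero_left] at rγβ
    omega
  have hsub : β + (γ + δ) - δ = γ + β := by abel
  have hfin : ∀ w : Lm C6 K, cf w (β + (γ + δ)) = 0 → cf w (γ + β) = (sg C6 γ β : K) → cf (xe C6 (E C6 δ) 1 w) (β + (γ + δ)) ≠ 0 := by
    intro w h1 h4
    rw [JLN_cf hδ 1 w hζr hζδ, hsub, h1, h4, zero_add, one_mul]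
    exact mul_ne_zero (sg_ne_zero C6 _ _) (sg_ne_zero C6 _ _)
  have c1 : cf (g (E C6 β)) (β + (γ + δ)) = 0 := by
    have := hsup 0 (by simp) _ kg
    rwa [sub_zero] at this
  have c2 : cf (g (E C6 β)) (γ + β) = (sg C6 γ β : K) := by rw [kg1, one_mul]
  have hL : cf (D (g (E C6 β))) (β + (γ + δ)) ≠ 0 := by
    rcases hD with ⟨hp, hD⟩ | ⟨hp, hD⟩
    · rw [hD]
      exact hfin _ c1 c2
    · have h3' : ip C6 (pv δ) γ = 0 := by
        rcases h3 with h | h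
        · exact absurd h hp
        · exact h
      have hpδ : ip C6 (pv δ) (pv δ) = 2 := by rw [hpi]; exact hδ
      have hpδβ : ip C6 (pv δ) β = 0 := by
        have := hpi δ β
        rw [hβ.2] at this
        rw [this, hδβ]
      have hpδδ : ip C6 (pv δ) δ = 0 := by
        have h5 := hRTFd δ ⟨hδ, hp⟩
        rw [ip_comm C6]
        exact h5
      rw [hD]
      refine hfin _ ?_ ?_
      · rw [JLN_orth hpδ _ _ hζr, c1]
        rw [ip_add_right, ip_add_right, hpδβ, h3', hpδδ]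
        norm_num
      · rw [JLN_orth hpδ _ _ rγβ, c2]
        rw [ip_add_right, hpδβ, h3']
        norm_num
  rw [he] at hL
  exact hL hR

/-- the element `D` -/
theorem JLN_D (hRTF : RTF_stmt) (hSGR : SGR_stmt) {K : Type} [Field K] {δ β : Fin 6 → ℤ} (hδ : ip C6 δ δ = 2) (hP : Pos δ) (hβ : LR β)
    (hδβ : ip C6 δ β = 0) : ∃ D ∈ GS (RingEquiv.refl K), D ∈ UG C6 K ∧ D (E C6 β) = (E C6 β : Lm C6 K) ∧
      ((pv δ = δ ∧ IsX C6 (E C6 δ) 1 D) ∨ (pv δ ≠ δ ∧ IsS (RingEquiv.refl K) δ 1 D)) := by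
  have hτ : ∀ x : K, (RingEquiv.refl K) ((RingEquiv.refl K) x) = x := fun _ => rfl
  obtain ⟨hpi, -, -, -, -, hPp, -⟩ := hRTF
  obtain ⟨hS1, hS2, -, -, -, -⟩ := hSGR K (RingEquiv.refl K) hτ
  by_cases hp : pv δ = δ
  · obtain ⟨D, hD, hDX⟩ := hS2 δ 1 ⟨hδ, hp⟩ rfl
    refine ⟨D, hD, Subgroup.subset_closure ⟨δ, hδ, hP, 1, hDX⟩, ?_, Or.inl ⟨hp, hDX⟩⟩
    rw [hDX]
    exact (f_ACT 6 C6 K δ 1 hδ).1 β hβ.1 hδβ.ge
  · obtain ⟨D, hD, hDS⟩ := hS1 δ 1 ⟨hδ, hp⟩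
    have hpδ : ip C6 (pv δ) (pv δ) = 2 := by rw [hpi]; exact hδ
    have hpδβ : ip C6 (pv δ) β = 0 := by
      have := hpi δ β
      rw [hβ.2] at this
      rw [this, hδβ]
    refine ⟨D, hD, ?_, ?_, Or.inr ⟨hp, hDS⟩⟩
    · obtain ⟨-, hE, hX, -⟩ := f_EXF 6 C6 K JLN_hb
      obtain ⟨-, -, -, -, h5, -⟩ := hX (E C6 δ) (hE _ hδ)
      obtain ⟨-, -, -, -, h5', -⟩ := hX (E C6 (pv δ)) (hE _ hpδ)
      obtain ⟨g1, -, hg1⟩ := h5 1
      obtain ⟨g2, -, hg2⟩ := h5' ((sn δ : K) * (RingEquiv.refl K) 1)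
      have e : D = g1 * g2 := by
        apply LinearEquiv.ext
        intro v
        have l1 : (g1 * g2) v = g1 (g2 v) := rfl
        rw [l1, hDS, hg1, hg2]
      rw [e]
      exact mul_mem (Subgroup.subset_closure ⟨δ, hδ, hP, 1, hg1⟩) (Subgroup.subset_closure ⟨pv δ, hpδ, hPp δ hP, _, hg2⟩)
    · rw [hDS, (f_ACT 6 C6 K (pv δ) _ hpδ).1 β hβ.1 hpδβ.ge]
      exact (f_ACT 6 C6 K δ 1 hδ).1 β hβ.1 hδβ.ge

theorem JLN (hLST : LST_stmt) (hRTF : RTF_stmt) (hSGR : SGR_stmt) (hESF : ESF_stmt) (hGFX : GFX_stmt) (hSYT : SYT_stmt) (hUNF : UNF_stmt) (hACS : ACS_stmt) (hJSH : JSH_stmt) (hJCM : JCM_stmt) (hJNL : JNL_stmt) (hJYS : JYS_stmt) (hJUM : JUM_stmt) (hJLF : JLF_stmt) : JLN_stmt := by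
  intro K _ _ h2 x hxx hSw P hP hUP hxP hth f hf
  have hτ : ∀ y : K, (RingEquiv.refl K) ((RingEquiv.refl K) y) = y := fun _ => rfl
  have hx2 : ∀ f : GF (RingEquiv.refl K), x (x f) = f := by
    intro f
    have := congrArg (fun y : MulAut (GF (RingEquiv.refl K)) => y f) hxx
    exact this
  have hchar : CharP K 2 := CharTwo.of_one_ne_zero_of_two_eq_zero one_ne_zero h2
  have hthL : LR th := by
    unfold LR
    decide +kernel
  have hbL : LR (th - sr 1) := by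
    unfold LR
    decide +kernel
  have hetaS : SR eta := by
    unfold SR
    decide +kernel
  have het2S : SR et2 := by
    unfold SR
    decide +kernel
  have hip : ip C6 th (th - sr 1) = 1 := by decide +kernel
  obtain ⟨hE1, hE2⟩ := hESF K (RingEquiv.refl K) hτ
  have hEt := hE1 th hthL
  have hEb := hE1 (th - sr 1) hbL
  have memL : ∀ β, LR β → (E C6 β : Lm C6 K) ∈ LT (RingEquiv.refl K) := fun β hβ => (hE2 _ (hE1 β hβ)).2.2.1
  obtain ⟨hGex, hGa⟩ := hGFX K (RingEquiv.refl K) hτ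
  obtain ⟨t_ex, t_mem, t_add, -, t_conj⟩ := hGa (E C6 th) hEt
  obtain ⟨b_ex, b_mem, b_add, -, b_conj⟩ := hGa (E C6 (th - sr 1)) hEb
  obtain ⟨hS1, -, -, -, -, -⟩ := hSGR K (RingEquiv.refl K) hτ
  -- `A` is normalised by `P`
  have L1 : ∀ p : GF (RingEquiv.refl K), p ∈ P → ∀ f : GF (RingEquiv.refl K), InA (f : Equiv.Perm (LT (RingEquiv.refl K))) →
      InA ((p * f * p⁻¹ : GF (RingEquiv.refl K)) : Equiv.Perm (LT (RingEquiv.refl K))) := by
    intro p hp f hf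
    obtain ⟨f1, f2, ⟨t1, -, h1⟩, ⟨t2, -, h2'⟩, he⟩ := hf
    obtain ⟨g, hg, hpg⟩ := p.2
    have e1 : g (E C6 th) = (E C6 th : Lm C6 K) := by
      have h3 := hSYT K (RingEquiv.refl K) hτ 2 Nat.prime_two hchar P hP hUP p hp ⟨E C6 th, memL th hthL⟩ rfl
      have h4 := hpg ⟨E C6 th, memL th hthL⟩
      rw [h3] at h4
      exact h4.symm
    obtain ⟨κ, κ', hκ⟩ := hJNL K h2 P hP hUP p hp ⟨E C6 (th - sr 1), memL _ hbL⟩ rfl
    have e2 : g (E C6 (th - sr 1)) = (κ • E C6 (th - sr 1) + κ' • E C6 th : Lm C6 K) := by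
      rw [← hκ]
      exact (hpg ⟨E C6 (th - sr 1), memL _ hbL⟩).symm
    have c1 := t_conj p.1 p.2 g hg hpg t1 f1 h1
    have c2 := b_conj p.1 p.2 g hg hpg t2 f2 h2'
    rw [e1] at c1
    rw [e2, add_comm] at c2
    obtain ⟨F1, -, hF1⟩ := t_ex (κ' * t2) rfl
    obtain ⟨F2, -, hF2⟩ := b_ex (κ * t2) rfl
    have c3 : p.1 * f2 * (p.1)⁻¹ = F1 * F2 := by
      refine Equiv.ext fun v => Subtype.ext ?_
      rw [c2 v, Equiv.Perm.mul_apply F1 F2 v, hF1, hF2]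
      exact ((f_COL 6 C6 K th (th - sr 1) hthL.1 hbL.1).1 hip).1 κ' κ t2 _
    refine ⟨p.1 * f1 * (p.1)⁻¹ * F1, F2, ⟨t1 + κ' * t2, rfl, t_add _ _ _ _ c1 hF1⟩, ⟨_, rfl, hF2⟩, ?_⟩
    have l : ((p * f * p⁻¹ : GF (RingEquiv.refl K)) : Equiv.Perm (LT (RingEquiv.refl K))) = p.1 * f.1 * (p.1)⁻¹ := rfl
    rw [l, he, mul_assoc (p.1 * f1 * (p.1)⁻¹), ← c3]
    group
  have L3 : ∀ p : GF (RingEquiv.refl K), p ∈ P → ∀ f : GF (RingEquiv.refl K), InA (f : Equiv.Perm (LT (RingEquiv.refl K))) →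
      ∃ f' : GF (RingEquiv.refl K), InA (f' : Equiv.Perm (LT (RingEquiv.refl K))) ∧ x f' = p * x f * p⁻¹ := by
    intro p hp f hf
    refine ⟨x p * f * (x p)⁻¹, L1 _ (hxP p hp) f hf, ?_⟩
    rw [map_mul, map_mul, map_inv, hx2]
  -- the image of the second root subgroup
  obtain ⟨h, hh, γ, hγ, hSw1⟩ := hSw (E C6 (th - sr 1)) hEb
  obtain ⟨u, hu, huU, γ', hγ', c, hc0, hJ⟩ := hJYS K h2 h hh γ hγ
  have hIff : ∀ f : Equiv.Perm (LT (RingEquiv.refl K)), InH h γ f ↔ InH u γ' f := by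
    intro f
    constructor
    · rintro ⟨t, g, hg, hf⟩
      obtain ⟨g', -, hg'⟩ := hS1 γ' (c * t) hγ'
      refine ⟨c * t, g', hg', fun v => ?_⟩
      rw [hf v]
      exact LinearEquiv.congr_fun (hJ t g g' hg hg') (v : Lm C6 K)
    · rintro ⟨t, g', hg', hf⟩
      obtain ⟨g, -, hg⟩ := hS1 γ (c⁻¹ * t) hγ
      refine ⟨c⁻¹ * t, g, hg, fun v => ?_⟩
      rw [hf v]
      exact (LinearEquiv.congr_fun (hJ (c⁻¹ * t) g g' hg (by rw [mul_inv_cancel_left₀ hc0]; exact hg')) (v : Lm C6 K)).symm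
  obtain ⟨fu, hfu, hfuv⟩ := hGex u hu
  have hpu : (⟨fu, hfu⟩ : GF (RingEquiv.refl K)) ∈ P := hUP _ ⟨u, hu, huU, hfuv⟩
  generalize hpudef : (⟨fu, hfu⟩ : GF (RingEquiv.refl K)) = pu at hpu
  have hpuv : ∀ v : LT (RingEquiv.refl K), (((pu : GF (RingEquiv.refl K)) : Equiv.Perm (LT (RingEquiv.refl K))) v : Lm C6 K) = u (v : Lm C6 K) := by
    rw [← hpudef]
    exact hfuv
  have hpuv' : ∀ v : LT (RingEquiv.refl K), (((pu : GF (RingEquiv.refl K)) : Equiv.Perm (LT (RingEquiv.refl K)))⁻¹ v : Lm C6 K) = u⁻¹ (v : Lm C6 K) := by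
    intro v
    have e := hpuv ((pu : Equiv.Perm (LT (RingEquiv.refl K)))⁻¹ v)
    have e' : (pu : Equiv.Perm (LT (RingEquiv.refl K))) ((pu : Equiv.Perm (LT (RingEquiv.refl K)))⁻¹ v) = v :=
      Equiv.apply_symm_apply _ v
    rw [e'] at e
    rw [e, JLN_inv_apply']
  have hEta : ∀ u' ∈ GS (RingEquiv.refl K), u' ∈ UG C6 K → ∀ f : Equiv.Perm (LT (RingEquiv.refl K)), InH u' eta f → InH 1 eta f := by
    rintro u' hu' huU' f ⟨t, g, hg, hf⟩
    refine ⟨t, g, hg, fun v => ?_⟩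
    have e := hJUM K h2 u' hu' huU' t g hg
    have e2 : u' (g (u'⁻¹ (v : Lm C6 K))) = (u' * g) (u'⁻¹ (v : Lm C6 K)) := rfl
    have e3 : (g * u') (u'⁻¹ (v : Lm C6 K)) = g (u' (u'⁻¹ (v : Lm C6 K))) := rfl
    rw [hf v, e2, e, e3, JLN_inv_apply]
    rfl
  have M1 : ∀ f : GF (RingEquiv.refl K), InA (f : Equiv.Perm (LT (RingEquiv.refl K))) → ∃ a b : GF (RingEquiv.refl K),
      InH 1 eta (a : Equiv.Perm (LT (RingEquiv.refl K))) ∧ InH 1 γ' (b : Equiv.Perm (LT (RingEquiv.refl K))) ∧ x f = a * b := by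
    intro f hf
    obtain ⟨f', ⟨f1, f2, h1, h2', he⟩, hxf'⟩ := L3 pu hpu f hf
    have m1 : f1 ∈ GF (RingEquiv.refl K) := by
      obtain ⟨t, -, ht⟩ := h1
      exact t_mem t f1 rfl ht
    have m2 : f2 ∈ GF (RingEquiv.refl K) := by
      obtain ⟨t, -, ht⟩ := h2'
      exact b_mem t f2 rfl ht
    have e : f' = (⟨f1, m1⟩ : GF (RingEquiv.refl K)) * ⟨f2, m2⟩ := Subtype.ext he
    have r1 := (hth ⟨f1, m1⟩).1 h1
    have r2 := (hIff _).1 ((hSw1 ⟨f2, m2⟩).1 h2')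
    have hfu' : ((pu : GF (RingEquiv.refl K)) : Equiv.Perm (LT (RingEquiv.refl K)))⁻¹ ∈ GF (RingEquiv.refl K) := inv_mem pu.2
    refine ⟨pu⁻¹ * x ⟨f1, m1⟩ * pu, pu⁻¹ * x ⟨f2, m2⟩ * pu, ?_, ?_, ?_⟩
    · have := (hJSH K h2 1 (one_mem _) eta hetaS).2.2.2.2.1 _ r1 _ hfu' u⁻¹ (inv_mem hu) hpuv'
      rw [mul_one] at this
      have h5 := hEta u⁻¹ (inv_mem hu) (inv_mem huU) _ this
      have l : ((pu⁻¹ * x ⟨f1, m1⟩ * pu : GF (RingEquiv.refl K)) : Equiv.Perm (LT (RingEquiv.refl K))) =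
          (pu : Equiv.Perm (LT (RingEquiv.refl K)))⁻¹ * (x ⟨f1, m1⟩ : GF (RingEquiv.refl K)) * ((pu : Equiv.Perm (LT (RingEquiv.refl K)))⁻¹)⁻¹ := by
        rw [inv_inv]
        rfl
      rw [l]
      exact h5
    · have := (hJSH K h2 u hu γ' hγ').2.2.2.2.1 _ r2 _ hfu' u⁻¹ (inv_mem hu) hpuv'
      rw [inv_mul_cancel] at this
      have l : ((pu⁻¹ * x ⟨f2, m2⟩ * pu : GF (RingEquiv.refl K)) : Equiv.Perm (LT (RingEquiv.refl K))) =
          (pu : Equiv.Perm (LT (RingEquiv.refl K)))⁻¹ * (x ⟨f2, m2⟩ : GF (RingEquiv.refl K)) * ((pu : Equiv.Perm (LT (RingEquiv.refl K)))⁻¹)⁻¹ := by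
        rw [inv_inv]
        rfl
      rw [l]
      exact this
    · have e5 : x f = pu⁻¹ * x f' * pu := by
        rw [hxf']
        group
      rw [e5, e, map_mul]
      group
  have M2 : ∀ b : GF (RingEquiv.refl K), InH 1 γ' (b : Equiv.Perm (LT (RingEquiv.refl K))) →
      ∃ f' : GF (RingEquiv.refl K), InA (f' : Equiv.Perm (LT (RingEquiv.refl K))) ∧ x f' = b := by
    intro b hb
    have r := (hJSH K h2 1 (one_mem _) γ' hγ').2.2.2.2.1 _ hb _ pu.2 u hu hpuv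
    rw [mul_one] at r
    have r2 := (hSw1 (x (pu * b * pu⁻¹))).2 (by rw [hx2]; exact (hIff _).2 r)
    have r3 : InA ((x (pu * b * pu⁻¹) : GF (RingEquiv.refl K)) : Equiv.Perm (LT (RingEquiv.refl K))) := by
      refine ⟨1, _, ⟨0, rfl, fun v => ?_⟩, r2, (one_mul _).symm⟩
      unfold xe
      simp
    obtain ⟨f', hf', hxf'⟩ := L3 pu⁻¹ (inv_mem hpu) _ r3
    refine ⟨f', hf', ?_⟩
    rw [hxf', hx2]
    group
  have N1 : ¬ (γ' = eta ∨ γ' = pv eta) := by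
    intro hor
    obtain ⟨f2, m2, h2'⟩ := b_ex 1 rfl
    have r := (hIff _).1 ((hSw1 ⟨f2, m2⟩).1 ⟨1, rfl, h2'⟩)
    have r2 : InH u eta ((x ⟨f2, m2⟩ : GF (RingEquiv.refl K)) : Equiv.Perm (LT (RingEquiv.refl K))) := by
      rcases hor with h | h
      · rw [h] at r
        exact r
      · rw [h] at r
        exact ((hJSH K h2 u hu eta hetaS).2.2.2.2.2.1 _).2 r
    have r3 := hEta u hu huU _ r2
    obtain ⟨t, -, ht⟩ := (hth ⟨f2, m2⟩).2 r3
    have e := hUNF K (RingEquiv.refl K) hτ (E C6 (th - sr 1)) (E C6 th) t f2 hEb hEt h2' ht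
    have e1 := congrArg (fun v : Lm C6 K => cf v (th - sr 1)) e
    have hne : th - sr 1 ≠ th := by decide +kernel
    simp only [cf_smul, cf_E C6 hbL.1, cf_E C6 hthL.1, if_true, if_neg hne, mul_zero] at e1
    exact one_ne_zero e1
  by_cases hg2 : γ' = et2 ∨ γ' = pv et2
  · obtain ⟨a, b, ha, hb, hab⟩ := M1 f hf
    refine ⟨a, b, ha, ?_, ?_⟩
    · rcases hg2 with h | h
      · rw [h] at hb
        exact hb
      · rw [h] at hb
        exact ((hJSH K h2 1 (one_mem _) et2 het2S).2.2.2.2.2.1 _).2 hb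
    · rw [hab]
      rfl
  · exfalso
    push Not at N1 hg2
    obtain ⟨δ, β, hδ, hδP, hδγ, hδ3, -, hβ, hγβ, hδβ, hz1, hz2, hz3⟩ := hJLF γ' hγ' N1.1 N1.2 hg2.1 hg2.2
    obtain ⟨D, hD, hDU, hDβ, hDc⟩ := JLN_D hRTF hSGR (K := K) hδ hδP hβ hδβ
    obtain ⟨fD, hfD, hfDv⟩ := hGex D hD
    have hpD : (⟨fD, hfD⟩ : GF (RingEquiv.refl K)) ∈ P := hUP _ ⟨D, hD, hDU, hfDv⟩
    obtain ⟨b₁, mb, g1, -, hg1, hb1⟩ := (hJSH K h2 1 (one_mem _) γ' hγ').1 1
    obtain ⟨f', hf', hxf'⟩ := M2 ⟨b₁, mb⟩ ⟨1, g1, hg1, hb1⟩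
    obtain ⟨f'', hf'', hxf''⟩ := L3 ⟨fD, hfD⟩ hpD f' hf'
    obtain ⟨a, b, ⟨s, ga, hga, ha⟩, ⟨r, gb, hgb, hb⟩, hab⟩ := M1 f'' hf''
    rw [hxf'', hxf'] at hab
    have e1 : fD * b₁ * fD⁻¹ = (a : Equiv.Perm (LT (RingEquiv.refl K))) * (b : Equiv.Perm (LT (RingEquiv.refl K))) :=
      congrArg Subtype.val hab
    have e2 := congrArg (fun F : Equiv.Perm (LT (RingEquiv.refl K)) => ((F ⟨E C6 β, memL β hβ⟩ : LT (RingEquiv.refl K)) : Lm C6 K)) e1
    have e3 : fD⁻¹ ⟨E C6 β, memL β hβ⟩ = ⟨E C6 β, memL β hβ⟩ := by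
      rw [Equiv.Perm.inv_eq_iff_eq]
      refine Subtype.ext ?_
      rw [hfDv]
      exact hDβ.symm
    simp only [Equiv.Perm.mul_apply] at e2
    rw [e3, hfDv, hb1, ha, hb] at e2
    exact JLN_con hRTF hACS hγ' hδ hδγ hδ3 hβ hγβ hδβ hz1 hz2 hz3 D g1 ga gb hDc s r hg1 hga hgb e2

end Pool.Agent.EXT
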